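import Pool.Agent.Helper75x.NR.StmF

/-!
# Project NR (MP_35c333_an), task F: a character argument
-/

set_option autoImplicit false

namespace Pool.Agent.Helper75x.NRF

open Pool.Agent.Helper75x.NR Pool.Agent.TH91.NB Pool.Agent.TH91.RF Topology

section

variable {N : ℕ} {h : Submodule ℝ (Mt N)} {M : Mt N}

/-- `h ⊕ ℝ M` -/
def gg (h : Submodule ℝ (Mt N)) (M : Mt N) : Submodule ℝ (Mt N) := h ⊔ Submodule.span ℝ {M}

/-- brackets of `h ⊕ ℝ M` -/
def hp (h : Submodule ℝ (Mt N)) (M : Mt N) : Submodule ℝ (Mt N) :=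
  Submodule.span ℝ ({z | ∃ x ∈ h, ∃ y ∈ h, z = x * y - y * x} ∪ {z | ∃ x ∈ h, z = M * x - x * M})

theorem mem_gg {z : Mt N} : z ∈ gg h M ↔ ∃ x ∈ h, ∃ s : ℝ, z = x + s • M := by
  unfold gg
  rw [Submodule.mem_sup]
  constructor
  · rintro ⟨x, hx, y, hy, rfl⟩
    obtain ⟨s, rfl⟩ := Submodule.mem_span_singleton.1 hy
    exact ⟨x, hx, s, rfl⟩
  · rintro ⟨x, hx, s, rfl⟩
    exact ⟨x, hx, s • M, Submodule.mem_span_singleton.2 ⟨s, rfl⟩, rfl⟩

theorem hp_le (hbr : ∀ x ∈ h, ∀ y ∈ h, x * y - y * x ∈ h) (hbM : ∀ x ∈ h, M * x - x * M ∈ h) :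
    hp h M ≤ h := by
  unfold hp
  rw [Submodule.span_le]
  rintro z (⟨x, hx, y, hy, rfl⟩ | ⟨x, hx, rfl⟩)
  · exact hbr x hx y hy
  · exact hbM x hx

theorem br_mem_hp {z w : Mt N} (hz : z ∈ gg h M) (hw : w ∈ gg h M) : z * w - w * z ∈ hp h M := by
  obtain ⟨x, hx, s, rfl⟩ := mem_gg.1 hz
  obtain ⟨y, hy, t, rfl⟩ := mem_gg.1 hw
  have e : (x + s • M) * (y + t • M) - (y + t • M) * (x + s • M) =
      (x * y - y * x) + s • (M * y - y * M) - t • (M * x - x * M) := by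
    simp only [mul_add, add_mul, smul_mul_assoc, mul_smul_comm]
    module
  rw [e]
  have h1 : x * y - y * x ∈ hp h M := Submodule.subset_span (Or.inl ⟨x, hx, y, hy, rfl⟩)
  have h2 : M * y - y * M ∈ hp h M := Submodule.subset_span (Or.inr ⟨y, hy, rfl⟩)
  have h3 : M * x - x * M ∈ hp h M := Submodule.subset_span (Or.inr ⟨x, hx, rfl⟩)
  exact Submodule.sub_mem _ (Submodule.add_mem _ h1 (Submodule.smul_mem _ _ h2))
    (Submodule.smul_mem _ _ h3)

theorem ratsmul_mem (K : Submodule ℝ (Mt N)) {x : Mt N} (hx : x ∈ K) (q : ℚ) : q • x ∈ K := by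
  rw [← Rat.cast_smul_eq_qsmul ℝ]
  exact K.smul_mem _ hx

/-- a character is trivial on the brackets -/
theorem C_hp (hbr : ∀ x ∈ h, ∀ y ∈ h, x * y - y * x ∈ h) (hbM : ∀ x ∈ h, M * x - x * M ∈ h)
    {C : Mt N → Circle} (hadd : ∀ x ∈ h, ∀ y ∈ h, C (x + y) = C x * C y)
    (h1 : ∀ x ∈ h, ∀ y ∈ h, C (x * y - y * x) = 1) (h2 : ∀ x ∈ h, C (M * x - x * M) = 1)
    {z : Mt N} (hz : z ∈ hp h M) : C z = 1 := by
  have hC0 : C 0 = 1 := by
    have := hadd 0 h.zero_mem 0 h.zero_mem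
    rw [add_zero] at this
    exact (mul_eq_left.1 this.symm)
  have key : ∀ c : ℝ, C (c • z) = 1 := by
    unfold hp at hz
    induction hz using Submodule.span_induction with
    | mem z hz =>
      intro c
      rcases hz with ⟨x, hx, y, hy, rfl⟩ | ⟨x, hx, rfl⟩
      · have e : c • (x * y - y * x) = (c • x) * y - y * (c • x) := by
          rw [smul_mul_assoc, mul_smul_comm, smul_sub]
        rw [e]
        exact h1 _ (h.smul_mem c hx) y hy
      · have e : c • (M * x - x * M) = M * (c • x) - (c • x) * M := by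
          rw [smul_mul_assoc, mul_smul_comm, smul_sub]
        rw [e]
        exact h2 _ (h.smul_mem c hx)
    | zero => intro c; rw [smul_zero, hC0]
    | add x y hx hy ihx ihy =>
      intro c
      rw [smul_add, hadd _ (h.smul_mem c (hp_le hbr hbM hx)) _ (h.smul_mem c (hp_le hbr hbM hy)),
        ihx, ihy, mul_one]
    | smul s x _ ih => intro c; rw [smul_smul]; exact ih _
  simpa using key 1

end

theorem taskF : TaskF := by
  intro N h M H Λ a hh hM hbr hbM hind ha hH hΛH hdense hγ C hCc hadd hC1 hC2 k hk hCk hCeq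
  have hC0 : C 0 = 1 := by
    have := hadd 0 h.zero_mem 0 h.zero_mem
    rw [add_zero] at this
    exact (mul_eq_left.1 this.symm)
  have hhp : hp h M ≤ h := hp_le hbr hbM
  have hle : h ≤ gg h M := le_sup_left
  have hMgg : M ∈ gg h M := mem_gg.2 ⟨0, h.zero_mem, 1, by rw [zero_add, one_smul]⟩
  have hgg1 : ∀ z ∈ gg h M, z ∈ (J887.matFiltR N).F 1 := by
    intro z hz
    obtain ⟨x, hx, s, rfl⟩ := mem_gg.1 hz
    exact Submodule.add_mem _ (hh x hx) (smulR_mem hM s)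
  -- the product formula
  have hlat : LieLat (J887.matFiltR N) (gg h M).toAddSubgroup :=
    ⟨hgg1, fun u hu v hv => ratsmul_mem (gg h M) (hle (hhp (br_mem_hp hu hv))) _⟩
  have hidl : LieIdl N (gg h M).toAddSubgroup (hp h M).toAddSubgroup :=
    ⟨fun x hx => hle (hhp hx), fun u hu v hv =>
      ratsmul_mem (hp h M) (br_mem_hp hu (hle (hhp hv))) _⟩
  have hprod : ∀ z ∈ gg h M, ∀ w ∈ gg h M, ∃ j ∈ hp h M,
      IsNilpotent.exp z * IsNilpotent.exp w = IsNilpotent.exp (z + w + j) := by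
    intro z hz w hw
    obtain ⟨j, hj, h1⟩ := hlat.exp_mul_add hidl hz hw (ratsmul_mem (hp h M) (br_mem_hp hz hw) _)
    exact ⟨j, hj, h1⟩
  -- logarithms
  have hLg : ∀ z ∈ gg h M, J887.Lg N N (IsNilpotent.exp z) = z := fun z hz =>
    J887.Lg_exp (hgg1 z hz)
  -- the functional
  have hMh : M ∉ h := by
    intro hMh
    have := hind M hMh 1 (by rw [one_smul])
    norm_num at this
  obtain ⟨χ, hχM, hχh⟩ : ∃ χ : Mt N →ₗ[ℝ] ℝ, χ M = 1 ∧ ∀ x ∈ h, χ x = 0 := by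
    obtain ⟨f, hf1, hf2⟩ := Submodule.exists_le_ker_of_notMem hMh
    refine ⟨(f M)⁻¹ • f, ?_, ?_⟩
    · rw [LinearMap.smul_apply, smul_eq_mul, inv_mul_cancel₀ hf1]
    · intro x hx
      rw [LinearMap.smul_apply, LinearMap.mem_ker.1 (hf2 hx), smul_zero]
  have hχc : Continuous χ := χ.continuous_of_finiteDimensional
  set prj : Mt N → Mt N := fun z => z - χ z • M with hprj
  have hprjc : Continuous prj := continuous_id.sub (hχc.smul continuous_const)
  have hprjh : ∀ z ∈ gg h M, prj z ∈ h := by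
    intro z hz
    obtain ⟨x, hx, s, rfl⟩ := mem_gg.1 hz
    have : prj (x + s • M) = x := by
      simp only [hprj, map_add, map_smul, hχM, hχh x hx, smul_eq_mul, mul_one, zero_add,
        add_sub_cancel_right]
    rw [this]; exact hx
  have hprj_add : ∀ z w, prj (z + w) = prj z + prj w := by
    intro z w
    simp only [hprj, map_add, add_smul]
    abel
  -- the character of `exp gg`
  set ψ : (Mt N)ˣ → Circle := fun u => C (prj (J887.Lg N N (u : Mt N))) with hψ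
  set E : Set (Mt N)ˣ := {u | ∃ z ∈ gg h M, (u : Mt N) = IsNilpotent.exp z} with hE
  have hψE : ∀ (u : (Mt N)ˣ) (z : Mt N), z ∈ gg h M → (u : Mt N) = IsNilpotent.exp z →
      ψ u = C (prj z) := by
    intro u z hz hu
    simp only [hψ]
    rw [hu, hLg z hz]
  have hHE : ∀ u ∈ H, ∃ z ∈ gg h M, (u : Mt N) = IsNilpotent.exp z ∧ ∃ n : ℤ, χ z = n := by
    intro u hu
    obtain ⟨x, hx, n, hn⟩ := (hH u).1 hu
    obtain ⟨j, hj, h1⟩ := hprod x (hle hx) ((n : ℝ) • M) ((gg h M).smul_mem _ hMgg)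
    refine ⟨x + (n : ℝ) • M + j, (gg h M).add_mem ((gg h M).add_mem (hle hx)
      ((gg h M).smul_mem _ hMgg)) (hle (hhp hj)), by rw [hn, h1], n, ?_⟩
    rw [map_add, map_add, map_smul, hχM, hχh x hx, hχh j (hhp hj)]
    simp
  have hmulz : ∀ (u v : (Mt N)ˣ) (z w : Mt N), z ∈ gg h M → w ∈ gg h M →
      (u : Mt N) = IsNilpotent.exp z → (v : Mt N) = IsNilpotent.exp w →
      ∃ y ∈ gg h M, ((u * v : (Mt N)ˣ) : Mt N) = IsNilpotent.exp y ∧ χ y = χ z + χ w ∧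
        ∃ j ∈ hp h M, y = z + w + j := by
    intro u v z w hz hw hu hv
    obtain ⟨j, hj, h1⟩ := hprod z hz w hw
    refine ⟨z + w + j, (gg h M).add_mem ((gg h M).add_mem hz hw) (hle (hhp hj)), ?_, ?_, j, hj,
      rfl⟩
    · rw [Units.val_mul, hu, hv, h1]
    · rw [map_add, map_add, hχh j (hhp hj), add_zero]
  have hCp : ∀ j ∈ hp h M, C (prj j) = 1 := by
    intro j hj
    have : prj j = j := by
      simp only [hprj, hχh j (hhp hj), zero_smul, sub_zero]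
    rw [this]
    exact C_hp hbr hbM hadd hC1 hC2 hj
  have hψmul : ∀ u ∈ H, ∀ v ∈ H, ψ (u * v) = ψ u * ψ v := by
    intro u hu v hv
    obtain ⟨z, hz, hz1, -⟩ := hHE u hu
    obtain ⟨w, hw, hw1, -⟩ := hHE v hv
    obtain ⟨y, hy, hy1, -, j, hj, rfl⟩ := hmulz u v z w hz hw hz1 hw1
    rw [hψE _ _ hy hy1, hψE _ _ hz hz1, hψE _ _ hw hw1, hprj_add, hprj_add,
      hadd _ (h.add_mem (hprjh z hz) (hprjh w hw)) _ (hprjh j (hle (hhp hj))),
      hadd _ (hprjh z hz) _ (hprjh w hw), hCp j hj, mul_one]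
  let ψH : H →* Circle := MonoidHom.mk' (fun u => ψ (u : (Mt N)ˣ))
    (fun u v => hψmul _ u.2 _ v.2)
  have hψc : ContinuousOn ψ (H : Set (Mt N)ˣ) := by
    refine hCc.comp ((hprjc.comp ((J887.Lg_continuous N).comp Units.continuous_val)).continuousOn)
      ?_
    intro u hu
    obtain ⟨z, hz, hz1, -⟩ := hHE u hu
    show prj (J887.Lg N N (u : Mt N)) ∈ h
    rw [hz1, hLg z hz]
    exact hprjh z hz
  -- the element `γ1`
  obtain ⟨γ1, hγ1, β1, hβ1, hγ1e⟩ := hγ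
  have hψγ : ∀ (γ : (Mt N)ˣ) (β : Mt N), β ∈ h → (γ : Mt N) = IsNilpotent.exp (M + β) →
      ψ γ = C β := by
    intro γ β hβ hγe
    rw [hψE γ (M + β) ((gg h M).add_mem hMgg (hle hβ)) hγe]
    congr 1
    simp only [hprj, map_add, hχM, hχh β hβ, add_zero, one_smul, add_sub_cancel_left]
  set ω : Circle := C β1 with hω
  have hωk : ω ^ k = 1 := hCk γ1 hγ1 β1 hβ1 hγ1e
  have hψγ1 : ψ γ1 = ω := hψγ γ1 β1 hβ1 hγ1e
  -- elements of `Λ ∩ exp h`
  have hΛ0 : ∀ γ ∈ Λ, ∀ z ∈ gg h M, (γ : Mt N) = IsNilpotent.exp z → χ z = 0 → ψ γ = 1 := by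
    intro γ hγ' z hz hz1 hz0
    obtain ⟨y, hy, hy1, hy2, j, hj, rfl⟩ := hmulz γ1 γ (M + β1) z
      ((gg h M).add_mem hMgg (hle hβ1)) hz hγ1e hz1
    have hzh : z ∈ h := by
      have := hprjh z hz
      simpa only [hprj, hz0, zero_smul, sub_zero] using this
    have hb : β1 + z + j ∈ h := h.add_mem (h.add_mem hβ1 hzh) (hhp hj)
    have e : M + β1 + z + j = M + (β1 + z + j) := by abel
    rw [e] at hy1
    have h1 := hCeq (γ1 * γ) (Λ.mul_mem hγ1 hγ') _ hb γ1 hγ1 β1 hβ1 hy1 hγ1e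
    have h2 := hψγ (γ1 * γ) _ hb hy1
    rw [h1, hψmul γ1 (hΛH hγ1) γ (hΛH hγ'), hψγ1] at h2
    exact (mul_eq_left.1 h2)
  -- `χ` on powers
  have hpow : ∀ n : ℤ, ∃ z ∈ gg h M, ((γ1 ^ n : (Mt N)ˣ) : Mt N) = IsNilpotent.exp z ∧
      χ z = n := by
    intro n
    refine ⟨(n : ℝ) • (M + β1), (gg h M).smul_mem _ ((gg h M).add_mem hMgg (hle hβ1)), ?_, ?_⟩
    · have hm := hgg1 _ ((gg h M).add_mem hMgg (hle hβ1))
      have e1 : γ1 = Eu (M + β1) := Units.ext (by rw [hγ1e, Eu_val hm])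
      rw [e1, Eu_zpow hm, Eu_val (smulR_mem hm _)]
    · rw [map_smul, map_add, hχM, hχh β1 hβ1]
      simp
  have hΛk : ∀ γ ∈ Λ, ψ γ ^ k = 1 := by
    intro γ hγ'
    obtain ⟨z, hz, hz1, n, hn⟩ := hHE γ (hΛH hγ')
    obtain ⟨w, hw, hw1, hw2⟩ := hpow (-n)
    obtain ⟨y, hy, hy1, hy2, -⟩ := hmulz (γ1 ^ (-n)) γ w z hw hz hw1 hz1
    have h1 : ψ (γ1 ^ (-n) * γ) = 1 :=
      hΛ0 _ (Λ.mul_mem (Λ.zpow_mem hγ1 _) hγ') y hy hy1 (by
        rw [hy2, hw2, hn]; push_cast; ring)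
    have h2 : ψH ⟨γ1, hΛH hγ1⟩ ^ (-n) * ψH ⟨γ, hΛH hγ'⟩ = 1 := by
      rw [← map_zpow, ← map_mul]
      exact h1
    have h3 : ψ γ = ω ^ n := by
      have h4 : ω ^ (-n) * ψ γ = 1 := by
        rw [← hψγ1]; exact h2
      rw [zpow_neg] at h4
      exact (inv_mul_eq_one.1 h4).symm
    rw [h3, ← zpow_natCast, ← zpow_mul, mul_comm, zpow_mul, zpow_natCast, hωk, one_zpow]
  -- `a`
  have haH : a ∈ H := by
    rw [hH]
    exact ⟨0, h.zero_mem, 1, by rw [ha, IsNilpotent.exp_zero, one_mul, Int.cast_one, one_smul]⟩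
  have hψa : ψ a = 1 := by
    rw [hψE a M hMgg ha]
    have : prj M = 0 := by simp only [hprj, hχM, one_smul, sub_self]
    rw [this, hC0]
  have hHk : ∀ u ∈ H, ψ u ^ k = 1 := by
    intro u hu
    set S : Set (Mt N)ˣ := {v | ∃ n : ℤ, ∃ γ ∈ Λ, v = a ^ n * γ} with hS
    have hSH : S ⊆ (H : Set (Mt N)ˣ) := by
      rintro v ⟨n, γ, hγ', rfl⟩
      exact H.mul_mem (H.zpow_mem haH n) (hΛH hγ')
    have hc : ContinuousWithinAt (fun v => ψ v ^ k) S u :=
      ((hψc u hu).mono hSH).pow k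
    have h1 := hc.mem_closure_image (hdense u hu)
    have h2 : (fun v => ψ v ^ k) '' S ⊆ {1} := by
      rintro _ ⟨v, ⟨n, γ, hγ', rfl⟩, rfl⟩
      show ψ (a ^ n * γ) ^ k = 1
      have h3 : ψ (a ^ n * γ) = ψH ⟨a, haH⟩ ^ n * ψH ⟨γ, hΛH hγ'⟩ := by
        rw [← map_zpow, ← map_mul]
        rfl
      have h4 : ψH ⟨a, haH⟩ = 1 := hψa
      rw [h3, h4, one_zpow, one_mul]
      exact hΛk γ hγ'
    have h3 := closure_mono h2 h1
    rw [closure_singleton] at h3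
    exact h3
  -- the conclusion
  have hCk1 : ∀ x ∈ h, C x ^ k = 1 := by
    intro x hx
    have hu : Eu x ∈ H := by
      rw [hH]
      refine ⟨x, hx, 0, ?_⟩
      rw [Eu_val (hh x hx), Int.cast_zero, zero_smul, IsNilpotent.exp_zero, mul_one]
    have h1 := hHk _ hu
    rw [hψE _ x (hle hx) (Eu_val (hh x hx))] at h1
    have : prj x = x := by simp only [hprj, hχh x hx, zero_smul, sub_zero]
    rwa [this] at h1
  have hnsmul : ∀ x ∈ h, ∀ m : ℕ, C ((m : ℝ) • x) = C x ^ m := by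
    intro x hx m
    induction m with
    | zero => rw [Nat.cast_zero, zero_smul, hC0, pow_zero]
    | succ m ih =>
      rw [Nat.cast_succ, add_smul, one_smul, hadd _ (h.smul_mem _ hx) _ hx, ih, pow_succ]
  intro x hx
  have hk0 : (k : ℝ) ≠ 0 := by exact_mod_cast hk.ne'
  have h1 := hnsmul ((k : ℝ)⁻¹ • x) (h.smul_mem _ hx) k
  rw [smul_smul, mul_inv_cancel₀ hk0, one_smul, hCk1 _ (h.smul_mem _ hx)] at h1
  exact h1

end Pool.Agent.Helper75x.NRF
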