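import Pool.Agent.Helper75x.NR.StmF
import Pool.Agent.Helper75x.NRA.A1

/-!
# Project NR (MP_35c333_an), task G: forward times
-/

set_option autoImplicit false

namespace Pool.Agent.Helper75x.NRF

open Pool.Agent.Helper75x.NR Topology

variable {P : Type} [Group P] [TopologicalSpace P] [IsTopologicalGroup P]

/-- The products `r ^ n * s ^ m * p` with `n > n0`. -/
def fwd (r s : P) (Λ : Subgroup P) (n0 : ℤ) : Set P :=
  {z | ∃ n m : ℤ, n0 < n ∧ ∃ p ∈ Λ, z = r ^ n * s ^ m * p}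

/-- The group of the products `r ^ n * s ^ m`. -/
def grp (r s : P) (h : Commute r s) : Subgroup P where
  carrier := {l | ∃ n m : ℤ, l = r ^ n * s ^ m}
  one_mem' := ⟨0, 0, by simp⟩
  mul_mem' := by
    rintro _ _ ⟨n, m, rfl⟩ ⟨n', m', rfl⟩
    refine ⟨n + n', m + m', ?_⟩
    have h1 : s ^ m * r ^ n' = r ^ n' * s ^ m := ((h.zpow_zpow n' m).eq).symm
    rw [zpow_add, zpow_add]
    calc r ^ n * s ^ m * (r ^ n' * s ^ m') = r ^ n * (s ^ m * r ^ n') * s ^ m' := by group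
      _ = r ^ n * (r ^ n' * s ^ m) * s ^ m' := by rw [h1]
      _ = r ^ n * r ^ n' * (s ^ m * s ^ m') := by group
  inv_mem' := by
    rintro _ ⟨n, m, rfl⟩
    refine ⟨-n, -m, ?_⟩
    have h1 : s ^ (-m) * r ^ (-n) = r ^ (-n) * s ^ (-m) := ((h.zpow_zpow (-n) (-m)).eq).symm
    rw [mul_inv_rev, ← zpow_neg, ← zpow_neg, h1]

lemma mul_fwd {r s : P} (h : Commute r s) {Λ : Subgroup P} (n n' m m' : ℤ) (p : P) :
    r ^ n * s ^ m * (r ^ n' * s ^ m' * p) = r ^ (n + n') * s ^ (m + m') * p := by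
  have h1 : s ^ m * r ^ n' = r ^ n' * s ^ m := ((h.zpow_zpow n' m).eq).symm
  rw [zpow_add, zpow_add]
  calc r ^ n * s ^ m * (r ^ n' * s ^ m' * p) = r ^ n * (s ^ m * r ^ n') * s ^ m' * p := by group
    _ = r ^ n * (r ^ n' * s ^ m) * s ^ m' * p := by rw [h1]
    _ = r ^ n * r ^ n' * (s ^ m * s ^ m') * p := by group

lemma fwd_anti (r s : P) (Λ : Subgroup P) {n0 n1 : ℤ} (h : n0 ≤ n1) :
    fwd r s Λ n1 ⊆ fwd r s Λ n0 := by
  rintro z ⟨n, m, hn, p, hp, rfl⟩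
  exact ⟨n, m, lt_of_le_of_lt h hn, p, hp, rfl⟩

/-- A point in all the closures of the forward products. -/
lemma exists_mem_closure (r s : P) (Λ : Subgroup P) [CompactSpace (P ⧸ Λ)] :
    ∃ y : P, ∀ n0 : ℤ, y ∈ closure (fwd r s Λ n0) := by
  set q : P → P ⧸ Λ := fun x => (x : P ⧸ Λ) with hq
  have hopen : IsOpenMap q := QuotientGroup.isOpenMap_coe
  have hcont : Continuous q := QuotientGroup.continuous_mk
  set S : ℕ → Set (P ⧸ Λ) := fun k => closure (q '' fwd r s Λ (k : ℤ)) with hS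
  have hne : (⋂ k, S k).Nonempty := by
    apply IsCompact.nonempty_iInter_of_sequence_nonempty_isCompact_isClosed
    · intro k
      apply closure_mono
      apply Set.image_mono
      exact fwd_anti r s Λ (by push_cast; linarith)
    · intro k
      refine ⟨q (r ^ ((k : ℤ) + 1) * s ^ (0 : ℤ) * 1), subset_closure ?_⟩
      exact ⟨_, ⟨(k : ℤ) + 1, 0, by linarith, 1, Λ.one_mem, rfl⟩, rfl⟩
    · exact isClosed_closure.isCompact
    · intro k
      exact isClosed_closure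
  obtain ⟨x, hx⟩ := hne
  obtain ⟨y, rfl⟩ := QuotientGroup.mk_surjective x
  refine ⟨y, fun n0 => ?_⟩
  have h1 : (y : P ⧸ Λ) ∈ S n0.toNat := Set.mem_iInter.1 hx _
  have h2 : y ∈ q ⁻¹' closure (q '' fwd r s Λ (n0.toNat : ℤ)) := h1
  rw [hopen.preimage_closure_eq_closure_preimage hcont] at h2
  refine closure_mono ?_ h2
  rintro z ⟨w, ⟨n, m, hn, p, hp, rfl⟩, hw⟩
  have h3 : (r ^ n * s ^ m * p)⁻¹ * z ∈ Λ := QuotientGroup.eq.1 hw
  refine ⟨n, m, lt_of_le_of_lt (Int.self_le_toNat n0) hn, p * ((r ^ n * s ^ m * p)⁻¹ * z),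
    Λ.mul_mem hp h3, ?_⟩
  group

theorem taskG : TaskG := by
  intro P _ _ _ _ _ Λ hΛ hc r s hrs O hO hOΛ hex n0
  obtain ⟨n, m, hnm⟩ := hex
  obtain ⟨y, hy⟩ := exists_mem_closure r s Λ
  have h1 : (1 : P) ∈ closure {z : P | ∃ l ∈ grp r s hrs, ∃ p ∈ Λ, z = l * y * p} := by
    apply Pool.Agent.Helper75x.NRA.taskA1 P Λ hΛ hc (grp r s hrs) 1 y
    refine closure_mono ?_ (hy 0)
    rintro z ⟨n, m, -, p, hp, rfl⟩
    exact ⟨r ^ n * s ^ m, ⟨n, m, rfl⟩, p, hp, by rw [mul_one]⟩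
  have h2 : (1 : P) ∈ closure (fwd r s Λ (n0 - n)) := by
    have hsub : {z : P | ∃ l ∈ grp r s hrs, ∃ p ∈ Λ, z = l * y * p} ⊆
        closure (fwd r s Λ (n0 - n)) := by
      rintro z ⟨l, ⟨a, b, rfl⟩, p, hp, rfl⟩
      have hcont : Continuous (fun z : P => r ^ a * s ^ b * z * p) := by fun_prop
      have h3 := image_closure_subset_closure_image hcont ⟨y, hy (n0 - n - a), rfl⟩
      refine closure_mono ?_ h3
      rintro w ⟨v, ⟨n', m', hn', p', hp', rfl⟩, rfl⟩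
      refine ⟨a + n', b + m', by linarith, p' * p, Λ.mul_mem hp' hp, ?_⟩
      show r ^ a * s ^ b * (r ^ n' * s ^ m' * p') * p = _
      rw [mul_fwd hrs (Λ := Λ), mul_assoc]
    exact closure_minimal hsub isClosed_closure h1
  have hO' : IsOpen {z : P | r ^ n * s ^ m * z ∈ O} :=
    hO.preimage (continuous_const.mul continuous_id)
  obtain ⟨z, hz1, n', m', hn', p, hp, rfl⟩ :=
    mem_closure_iff.1 h2 _ hO' (by show r ^ n * s ^ m * 1 ∈ O; rwa [mul_one])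
  refine ⟨n + n', m + m', by linarith, ?_⟩
  have h4 : r ^ n * s ^ m * (r ^ n' * s ^ m' * p) ∈ O := hz1
  rw [mul_fwd hrs (Λ := Λ)] at h4
  have h5 := hOΛ _ h4 p⁻¹ (Λ.inv_mem hp)
  rwa [mul_inv_cancel_right] at h5

end Pool.Agent.Helper75x.NRF
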